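import Pool.Agent.Helper94.Supp.AngleMain

/-!
There is a support point of the class S along whose omitted arc the angle between the radius and
tangent vectors is not monotone. The example is the explicit function of the companion hand-in on
the argument. Here the real part of w'/w is positive along the arc and w'/w tends to the positive
direction at infinity, so a monotone angle would have constant sign and the argument of w would be
monotone; but the argument agrees at two points of the arc and differs at a point between them.
-/

namespace Pool.Agent.Results.MP_b8ff8c_an.NonMonotoneAngle

open Pool.Agent.Helper94.Supp

/-- Some support point of S omits an arc along which no continuous branch of the angle between the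
radius and tangent vectors is monotone, whichever regular analytic parametrisation of the arc is
used. -/
theorem result : ∃ f : HD, IsSupportPoint f ∧ (∃ w : ℝ → ℂ, OmittedArc f w) ∧
    ∀ w : ℝ → ℂ, OmittedArc f w → ¬ MonotonicAngle w :=
  q2_main

end Pool.Agent.Results.MP_b8ff8c_an.NonMonotoneAngle
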