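import Pool.Agent.Helper94.Supp.NonMono

/-!
There is a support point of the class S whose omitted arc does not have monotonic argument.

The example is explicit. For small real s put a = 1 - i s, k = 1 - 1/a, p = a^(-1/2) and
h(z) = (1 - k z^2)^(1/4) - i p z (1 - k z^2)^(-1/4), f(z) = z / h(z)^2.
With g in S write (z/g)^(1/2) = 1 + sum c_j z^j. The area theorem gives
sum (2j-1) |c_j|^2 <= 1, with equality for f (an Euler transformation of hypergeometric series),
and the linear functional obtained by linearising g -> (z/g)^(1/2) at f is maximised by f for
small s. The omitted arc is w = 1/(2 i p (y - 1)), y = x a / (1 + (a^2 - 1) x^2)^(1/2),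
-1 <= x < 1, which has the same argument at x = -1 and at x = 0, but not at x = -1/2.
-/

namespace Pool.Agent.Results.MP_b8ff8c_an.NonMonotoneArgument

open Pool.Agent.Helper94.Supp

/-- Some support point of S omits an arc along which no continuous branch of the argument is
monotone, whichever regular analytic parametrisation of the arc is used. -/
theorem result : ∃ f : HD, IsSupportPoint f ∧ (∃ w : ℝ → ℂ, OmittedArc f w) ∧
    ∀ w : ℝ → ℂ, OmittedArc f w → ¬ MonotonicArgument w :=
  q1_main

end Pool.Agent.Results.MP_b8ff8c_an.NonMonotoneArgument
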